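import Pool.Agent.H14.Rp1

namespace Pool.Agent.Results.MP_0bf243_co.Extend

/-- A finite binary word is rich if it has exactly `length + 1` distinct palindromic factors
(the empty word included). -/
def Rich (l : List Bool) : Prop :=
  {f : List Bool | f <:+: l ∧ f.reverse = f}.ncard = l.length + 1

theorem result (w : ℤ × ℤ → Option Bool) (i₀ j₀ : ℤ)
    (hw : ∀ i j : ℤ, w (i, j) ≠ none → i₀ ≤ i ∧ i ≤ i₀ + 6 ∧ j₀ ≤ j ∧ j ≤ j₀ + 6) :
    ∃ w' : ℤ × ℤ → Bool, (∀ p b, w p = some b → w' p = b) ∧
      ∀ (i j : ℤ) (n : ℕ),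
        Rich ((List.range (n + 1)).map fun k : ℕ => w' (i, j + k)) ∧
        Rich ((List.range (n + 1)).map fun k : ℕ => w' (i + k, j)) := by
  open Pool.Agent.H14.Rp in
  refine ⟨fun p => xor (xor ((w (i₀ + pos (p.1 - i₀), j₀ + pos (p.2 - j₀))).getD false)
    (flip (p.1 - i₀))) (flip (p.2 - j₀)), ?_, fun i j n => ⟨?_, ?_⟩⟩
  · rintro ⟨i, j⟩ b hb
    obtain ⟨h1, h2, h3, h4⟩ := hw i j (by rw [hb]; simp)
    have e1 : pos (i - i₀) = i - i₀ := by
      unfold pos; rw [if_neg (by omega), if_pos (by omega)]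
    have e2 : pos (j - j₀) = j - j₀ := by
      unfold pos; rw [if_neg (by omega), if_pos (by omega)]
    have f1 : flip (i - i₀) = false := by simp [Pool.Agent.H14.Rp.flip, h1]
    have f2 : flip (j - j₀) = false := by simp [Pool.Agent.H14.Rp.flip, h3]
    simp [e1, e2, f1, f2, hb]
  · have h := rich_seg (fun t => xor ((w (i₀ + pos (i - i₀), j₀ + t)).getD false)
      (flip (i - i₀))) (j - j₀) (n + 1)
    have e : seg (W fun t => xor ((w (i₀ + pos (i - i₀), j₀ + t)).getD false)
        (flip (i - i₀))) (j - j₀) (n + 1) = (List.range (n + 1)).map fun k : ℕ =>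
          xor (xor ((w (i₀ + pos (i - i₀), j₀ + pos (j + k - j₀))).getD false)
            (flip (i - i₀))) (flip (j + k - j₀)) := by
      refine List.map_congr_left fun k _ => ?_
      simp only [W]
      rw [show j - j₀ + k = j + k - j₀ by ring]
    rw [e] at h
    exact h
  · have h := rich_seg (fun t => xor ((w (i₀ + t, j₀ + pos (j - j₀))).getD false)
      (flip (j - j₀))) (i - i₀) (n + 1)
    have e : seg (W fun t => xor ((w (i₀ + t, j₀ + pos (j - j₀))).getD false)
        (flip (j - j₀))) (i - i₀) (n + 1) = (List.range (n + 1)).map fun k : ℕ =>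
          xor (xor ((w (i₀ + pos (i + k - i₀), j₀ + pos (j - j₀))).getD false)
            (flip (i + k - i₀))) (flip (j - j₀)) := by
      refine List.map_congr_left fun k _ => ?_
      simp only [W]
      rw [show i - i₀ + k = i + k - i₀ by ring, Bool.xor_right_comm]
    rw [e] at h
    exact h

end Pool.Agent.Results.MP_0bf243_co.Extend
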